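import Mathlib

/-!
Definitions for the bifurcation radius of the quadratic family `z ↦ z ^ 2 + c`.
-/

namespace Pool.Agent.Q186.Bif

open Topology Filter

/-- The quadratic polynomial `f_c (z) = z ^ 2 + c`. -/
def quad (c z : ℂ) : ℂ := z ^ 2 + c

/-- The semigroup `G_{c,r}`: all compositions `f_{c_N} ∘ ⋯ ∘ f_{c_1}` with `N ≥ 1` and all
`c_i` in the closed disk of radius `r` about `c`. -/
inductive InG (c : ℂ) (r : ℝ) : (ℂ → ℂ) → Prop
  | one (c' : ℂ) (h : ‖c' - c‖ ≤ r) : InG c r (quad c')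
  | comp (c' : ℂ) (g : ℂ → ℂ) (h : ‖c' - c‖ ≤ r) (hg : InG c r g) :
      InG c r (fun z => quad c' (g z))

/-- Nonempty compact forward invariant subsets of the Riemann sphere (polynomials act on the
sphere by fixing infinity). -/
def Inv (c : ℂ) (r : ℝ) (L : Set (OnePoint ℂ)) : Prop :=
  L.Nonempty ∧ IsCompact L ∧ ∀ g, InG c r g → OnePoint.map g '' L ⊆ L

/-- Minimal sets of `G_{c,r}`. -/
def IsMinSet (c : ℂ) (r : ℝ) (L : Set (OnePoint ℂ)) : Prop :=
  Inv c r L ∧ ∀ L', Inv c r L' → L' ⊆ L → L' = L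

/-- `G_{c,r}` has a planar minimal set: a minimal set not containing infinity. -/
def HasPlanarMinSet (c : ℂ) (r : ℝ) : Prop :=
  ∃ L, IsMinSet c r L ∧ OnePoint.infty ∉ L

/-- The bifurcation radius. -/
noncomputable def rbif (c : ℂ) : ℝ := sInf {r : ℝ | 0 ≤ r ∧ ¬ HasPlanarMinSet c r}

/-- The Mandelbrot set: the critical orbit does not tend to infinity. -/
def mandel : Set ℂ :=
  {c | ¬ Tendsto (fun n : ℕ => ((quad c)^[n] 0)) atTop (Bornology.cobounded ℂ)}

/-- The main cardioid. -/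
def mainCardioid : Set ℂ := {c | ∃ l : ℂ, ‖l‖ < 1 ∧ c = l / 2 - l ^ 2 / 4}

end Pool.Agent.Q186.Bif
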