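import Mathlib
import Pool.Agent.Q186.Bif.Defs

namespace Pool.Agent.Q186.Bif

open Topology Filter

/-- The invariant region. -/
def region (a b : ℝ) : Set ℂ :=
  {z | |a * z.re + b * z.im| ≤ a / 2 ∧ z.re ^ 2 + z.im ^ 2 ≤ (11 / 20) ^ 2}

lemma region_compact (a b : ℝ) : IsCompact (region a b) := by
  have hcl : IsClosed (region a b) := by
    have e : region a b = {z : ℂ | |a * z.re + b * z.im| ≤ a / 2} ∩
        {z : ℂ | z.re ^ 2 + z.im ^ 2 ≤ (11 / 20) ^ 2} := rfl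
    rw [e]
    apply IsClosed.inter
    · exact isClosed_le (((continuous_const.mul Complex.continuous_re).add
        (continuous_const.mul Complex.continuous_im)).abs) continuous_const
    · exact isClosed_le ((Complex.continuous_re.pow 2).add (Complex.continuous_im.pow 2))
        continuous_const
  have hb : Bornology.IsBounded (region a b) := by
    rw [isBounded_iff_forall_norm_le]
    refine ⟨1, fun z hz => ?_⟩
    have h := hz.2
    have h2 : ‖z‖ ^ 2 ≤ 1 ^ 2 := by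
      rw [← Complex.normSq_eq_norm_sq, Complex.normSq_apply]
      nlinarith
    have h3 := abs_le_of_sq_le_sq h2 (by norm_num)
    rwa [abs_of_nonneg (norm_nonneg z)] at h3
  exact Metric.isCompact_of_isClosed_isBounded hcl hb

lemma poly_bound (t : ℝ) (h0 : 0 ≤ t) (h1 : t ≤ 0.095) :
    (1 / 2 + 5 / 12 * t + 169 / 144 * t ^ 2) ^ 2 - t ^ 2 ≤ 0.297025 := by
  have h2 : 1 / 2 + 5 / 12 * t + 169 / 144 * t ^ 2 ≤ 1 / 2 + 0.53 * t := by nlinarith
  have h3 : (1 / 2 + 5 / 12 * t + 169 / 144 * t ^ 2) ^ 2 ≤ (1 / 2 + 0.53 * t) ^ 2 := by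
    apply pow_le_pow_left₀ (by positivity) h2
  nlinarith

lemma cs_bound {X Y u v : ℝ} (hkey : X ^ 2 + Y ^ 2 ≤ 0.297025)
    (huv2 : u ^ 2 + v ^ 2 ≤ (1 / 200) ^ 2) :
    (X + u) ^ 2 + (Y + v) ^ 2 ≤ (11 / 20) ^ 2 := by
  have hcs : (X * u + Y * v) ^ 2 ≤ (X ^ 2 + Y ^ 2) * (u ^ 2 + v ^ 2) := by
    have e : (X ^ 2 + Y ^ 2) * (u ^ 2 + v ^ 2) = (X * u + Y * v) ^ 2 + (X * v - Y * u) ^ 2 := by
      ring
    have := sq_nonneg (X * v - Y * u)
    linarith
  have hcs2 : (X * u + Y * v) ^ 2 ≤ (0.545 * (1 / 200)) ^ 2 := by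
    have : (X ^ 2 + Y ^ 2) * (u ^ 2 + v ^ 2) ≤ 0.297025 * (1 / 200) ^ 2 :=
      mul_le_mul hkey huv2 (by positivity) (by norm_num)
    have e2 : (0.297025 : ℝ) * (1 / 200) ^ 2 = (0.545 * (1 / 200)) ^ 2 := by norm_num
    linarith
  have hcs3 : X * u + Y * v ≤ 0.545 * (1 / 200) := by
    have := abs_le_of_sq_le_sq hcs2 (by norm_num)
    exact (abs_le.1 this).2
  have e3 : (X + u) ^ 2 + (Y + v) ^ 2 = (X ^ 2 + Y ^ 2) + (u ^ 2 + v ^ 2) + 2 * (X * u + Y * v) := by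
    ring
  rw [e3]
  norm_num at huv2 hcs3 hkey ⊢
  linarith

lemma region_invariant {a b : ℝ} (ha : 0 < a) (hb : |b| ≤ 5 / 12 * a)
    (hd : a ^ 2 + b ^ 2 ≤ (1 / 400) ^ 2) {u v : ℝ}
    (huv : (u + a) ^ 2 + (v + b) ^ 2 ≤ a ^ 2 + b ^ 2) {x y : ℝ}
    (h1 : |a * x + b * y| ≤ a / 2) (h2 : x ^ 2 + y ^ 2 ≤ (11 / 20) ^ 2) :
    |a * (x ^ 2 - y ^ 2 + 1 / 4 + u) + b * (2 * x * y + v)| ≤ a / 2 ∧
      (x ^ 2 - y ^ 2 + 1 / 4 + u) ^ 2 + (2 * x * y + v) ^ 2 ≤ (11 / 20) ^ 2 := by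
  have hauv : a * u + b * v ≤ 0 := by nlinarith [sq_nonneg u, sq_nonneg v]
  have huv2 : u ^ 2 + v ^ 2 ≤ (1 / 200) ^ 2 := by
    -- u²+v² ≤ -2(au+bv), squares
    have h3 : u ^ 2 + v ^ 2 ≤ 2 * (-(a * u + b * v)) := by nlinarith
    have h4 : (a * u + b * v) ^ 2 ≤ (a ^ 2 + b ^ 2) * (u ^ 2 + v ^ 2) := by
      nlinarith [sq_nonneg (a * v - b * u)]
    by_contra hcon
    push Not at hcon
    have h5 : (u ^ 2 + v ^ 2) ^ 2 ≤ 4 * ((a ^ 2 + b ^ 2) * (u ^ 2 + v ^ 2)) := by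
      have : (u ^ 2 + v ^ 2) ^ 2 ≤ (2 * (-(a * u + b * v))) ^ 2 :=
        pow_le_pow_left₀ (by positivity) h3 2
      nlinarith
    have h6 : u ^ 2 + v ^ 2 ≤ 4 * (a ^ 2 + b ^ 2) := by
      have hpos : 0 < u ^ 2 + v ^ 2 := lt_trans (by norm_num) hcon
      by_contra h7
      push Not at h7
      nlinarith [mul_pos hpos (sub_pos.2 h7)]
    nlinarith
  have hu : |u| ≤ 1 / 200 := abs_le_of_sq_le_sq (by nlinarith [sq_nonneg v]) (by norm_num)
  have hv : |v| ≤ 1 / 200 := abs_le_of_sq_le_sq (by nlinarith [sq_nonneg u]) (by norm_num)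
  obtain ⟨hb1, hb2⟩ := abs_le.1 hb
  obtain ⟨hu1, hu2⟩ := abs_le.1 hu
  obtain ⟨hv1, hv2⟩ := abs_le.1 hv
  obtain ⟨h11, h12⟩ := abs_le.1 h1
  have hA : a * (a * (x ^ 2 - y ^ 2) + 2 * b * x * y) ≤ a * (a / 4) := by
    have : (a * x + b * y) ^ 2 ≤ (a / 2) ^ 2 := sq_le_sq' h11 h12
    nlinarith [mul_nonneg (by positivity : 0 ≤ a ^ 2 + b ^ 2) (sq_nonneg y)]
  have hA' : a * (x ^ 2 - y ^ 2) + 2 * b * x * y ≤ a / 4 := le_of_mul_le_mul_left hA ha
  have hbxy : |2 * b * x * y| ≤ 5 / 12 * a * (x ^ 2 + y ^ 2) := by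
    have : |2 * b * x * y| = |b| * (2 * |x| * |y|) := by
      rw [abs_mul, abs_mul, abs_mul, abs_of_pos (by norm_num : (0:ℝ) < 2)]; ring
    rw [this]
    apply mul_le_mul hb _ (by positivity) (by positivity)
    have h20 := two_mul_le_add_sq |x| |y|
    rwa [sq_abs, sq_abs] at h20
  obtain ⟨hbxy1, hbxy2⟩ := abs_le.1 hbxy
  have hbv : |b * v| ≤ 5 / 12 * a * (1 / 200) := by
    rw [abs_mul]
    exact mul_le_mul hb hv (abs_nonneg _) (by positivity)
  obtain ⟨hbv1, hbv2⟩ := abs_le.1 hbv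
  refine ⟨abs_le.2 ⟨?_, ?_⟩, ?_⟩
  · -- lower bound
    have h8 : -(a * (x ^ 2 + y ^ 2)) ≤ a * (x ^ 2 - y ^ 2) := by
      have : 0 ≤ a * x ^ 2 := by positivity
      linarith
    have h9 : a * (x ^ 2 + y ^ 2) ≤ a * ((11 / 20) ^ 2) := mul_le_mul_of_nonneg_left h2 ha.le
    have h10 : a * (-(1/200)) ≤ a * u := mul_le_mul_of_nonneg_left hu1 ha.le
    have e : a * (x ^ 2 - y ^ 2 + 1 / 4 + u) + b * (2 * x * y + v)
        = a * (x ^ 2 - y ^ 2) + 2 * b * x * y + a / 4 + a * u + b * v := by ring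
    rw [e]
    linarith
  · have e : a * (x ^ 2 - y ^ 2 + 1 / 4 + u) + b * (2 * x * y + v)
        = (a * (x ^ 2 - y ^ 2) + 2 * b * x * y) + a / 4 + (a * u + b * v) := by ring
    rw [e]
    linarith
  · -- norm bound
    have hkey : (x ^ 2 - y ^ 2 + 1 / 4) ^ 2 + (2 * x * y) ^ 2 ≤ 0.297025 := by
      have hid : (x ^ 2 - y ^ 2 + 1 / 4) ^ 2 + (2 * x * y) ^ 2
          = (x ^ 2 + y ^ 2 + 1 / 4) ^ 2 - y ^ 2 := by ring
      rw [hid]
      rcases le_total 0.095 |y| with hy | hy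
      · have : 0.095 ^ 2 ≤ y ^ 2 := by
          rw [← sq_abs y]; exact pow_le_pow_left₀ (by norm_num) hy 2
        have h12 : (x ^ 2 + y ^ 2 + 1 / 4) ^ 2 ≤ ((11 / 20) ^ 2 + 1 / 4) ^ 2 :=
          pow_le_pow_left₀ (by positivity) (by linarith) 2
        norm_num at this h12 ⊢
        linarith
      · have hx : |x| ≤ 1 / 2 + 5 / 12 * |y| := by
          have h13 : a * |x| ≤ a * (1 / 2 + 5 / 12 * |y|) := by
            have h14 : a * |x| = |a * x| := by rw [abs_mul, abs_of_pos ha]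
            have h15 : |a * x| ≤ |a * x + b * y| + |b * y| := by
              have := abs_sub (a * x + b * y) (b * y)
              rwa [add_sub_cancel_right] at this
            have h16 : |b * y| ≤ 5 / 12 * a * |y| := by
              rw [abs_mul]; exact mul_le_mul_of_nonneg_right hb (abs_nonneg _)
            rw [h14]; linarith
          exact le_of_mul_le_mul_left h13 ha
        have hx2 : x ^ 2 ≤ (1 / 2 + 5 / 12 * |y|) ^ 2 := by
          rw [← sq_abs x]; exact pow_le_pow_left₀ (abs_nonneg _) hx 2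
        have hpb := poly_bound |y| (abs_nonneg _) hy
        have h17 : x ^ 2 + y ^ 2 + 1 / 4 ≤ 1 / 2 + 5 / 12 * |y| + 169 / 144 * |y| ^ 2 := by
          have e4 : (1 / 2 + 5 / 12 * |y|) ^ 2 = 1 / 4 + 5 / 12 * |y| + 25 / 144 * |y| ^ 2 := by
            ring
          have e5 : |y| ^ 2 = y ^ 2 := sq_abs y
          linarith
        have h18 : (x ^ 2 + y ^ 2 + 1 / 4) ^ 2
            ≤ (1 / 2 + 5 / 12 * |y| + 169 / 144 * |y| ^ 2) ^ 2 :=
          pow_le_pow_left₀ (by positivity) h17 2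
        have h19 : |y| ^ 2 = y ^ 2 := sq_abs y
        linarith
    exact cs_bound hkey huv2

lemma quad_mem_region {a b : ℝ} (ha : 0 < a) (hb : |b| ≤ 5 / 12 * a)
    (hd : a ^ 2 + b ^ 2 ≤ (1 / 400) ^ 2) {c' z : ℂ}
    (hc : ‖c' - (1 / 4 - (a + b * Complex.I))‖ ≤ Real.sqrt (a ^ 2 + b ^ 2))
    (hz : z ∈ region a b) : quad c' z ∈ region a b := by
  have hsq : ((c'.re - 1 / 4) + a) ^ 2 + (c'.im + b) ^ 2 ≤ a ^ 2 + b ^ 2 := by
    have h1 : ‖c' - (1 / 4 - (a + b * Complex.I))‖ ^ 2 ≤ a ^ 2 + b ^ 2 := by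
      have := pow_le_pow_left₀ (norm_nonneg _) hc 2
      rwa [Real.sq_sqrt (by positivity)] at this
    rw [← Complex.normSq_eq_norm_sq, Complex.normSq_apply] at h1
    have hre : (c' - (1 / 4 - (a + b * Complex.I))).re = (c'.re - 1 / 4) + a := by
      simp; try ring
    have him : (c' - (1 / 4 - (a + b * Complex.I))).im = c'.im + b := by
      simp
    rw [hre, him] at h1
    nlinarith
  have := region_invariant ha hb hd hsq hz.1 hz.2
  have hre : (quad c' z).re = z.re ^ 2 - z.im ^ 2 + 1 / 4 + (c'.re - 1 / 4) := by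
    simp [quad, pow_two]
  have him : (quad c' z).im = 2 * z.re * z.im + c'.im := by
    simp [quad, pow_two]; ring
  refine ⟨?_, ?_⟩
  · rw [hre, him]; exact this.1
  · rw [hre, him]; exact this.2

lemma InG_mem_region {a b : ℝ} (ha : 0 < a) (hb : |b| ≤ 5 / 12 * a)
    (hd : a ^ 2 + b ^ 2 ≤ (1 / 400) ^ 2) {r : ℝ} (hr : r ≤ Real.sqrt (a ^ 2 + b ^ 2))
    {g : ℂ → ℂ} (hg : InG (1 / 4 - (a + b * Complex.I)) r g) {z : ℂ}
    (hz : z ∈ region a b) : g z ∈ region a b := by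
  induction hg with
  | one c' h => exact quad_mem_region ha hb hd (h.trans hr) hz
  | comp c' g h hg ih => exact quad_mem_region ha hb hd (h.trans hr) ih

lemma zero_mem_region {a b : ℝ} (ha : 0 < a) : (0 : ℂ) ∈ region a b := by
  refine ⟨?_, ?_⟩
  · simp; linarith
  · norm_num

/-- Every compact nonempty invariant set contains a minimal one. -/
lemma exists_minSet {c : ℂ} {r : ℝ} {L : Set (OnePoint ℂ)} (hL : Inv c r L) :
    ∃ M, M ⊆ L ∧ IsMinSet c r M := by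
  obtain ⟨M, hML, hM⟩ := zorn_superset_nonempty {L | Inv c r L} (by
    intro ch hch hchain hne
    have : Nonempty ch := hne.to_subtype
    have hdir : DirectedOn (· ⊇ ·) ch := by
      intro x hx y hy
      rcases hchain.total hx hy with h | h
      · exact ⟨x, hx, subset_rfl, h⟩
      · exact ⟨y, hy, h, subset_rfl⟩
    refine ⟨⋂₀ ch, ⟨?_, ?_, ?_⟩, fun s hs => Set.sInter_subset_of_mem hs⟩
    · exact IsCompact.nonempty_sInter_of_directed_nonempty_isCompact_isClosed hdir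
        (fun U hU => (hch hU).1) (fun U hU => (hch hU).2.1) (fun U hU => (hch hU).2.1.isClosed)
    · obtain ⟨s, hs⟩ := hne
      exact (hch hs).2.1.of_isClosed_subset
        (isClosed_sInter fun U hU => (hch hU).2.1.isClosed) (Set.sInter_subset_of_mem hs)
    · intro g hg
      rintro _ ⟨z, hz, rfl⟩
      rw [Set.mem_sInter]
      intro U hU
      exact (hch hU).2.2 g hg ⟨z, Set.mem_sInter.1 hz U hU, rfl⟩) L hL
  refine ⟨M, hML, hM.prop, fun L' hL' hsub => ?_⟩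
  exact Set.Subset.antisymm hsub (hM.le_of_le hL' hsub)

lemma hasPlanar {a b : ℝ} (ha : 0 < a) (hb : |b| ≤ 5 / 12 * a)
    (hd : a ^ 2 + b ^ 2 ≤ (1 / 400) ^ 2) {r : ℝ} (hr : r ≤ Real.sqrt (a ^ 2 + b ^ 2)) :
    HasPlanarMinSet (1 / 4 - (a + b * Complex.I)) r := by
  have hinv : Inv (1 / 4 - (a + b * Complex.I)) r ((fun z : ℂ => (z : OnePoint ℂ)) '' region a b) := by
    refine ⟨⟨_, 0, zero_mem_region ha, rfl⟩, ?_, ?_⟩
    · exact (region_compact a b).image OnePoint.continuous_coe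
    · intro g hg
      rintro _ ⟨_, ⟨z, hz, rfl⟩, rfl⟩
      exact ⟨g z, InG_mem_region ha hb hd hr hg hz, rfl⟩
  obtain ⟨M, hM, hmin⟩ := exists_minSet hinv
  refine ⟨M, hmin, fun h => ?_⟩
  obtain ⟨z, _, hz⟩ := hM h
  exact OnePoint.coe_ne_infty z hz

end Pool.Agent.Q186.Bif
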