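import Mathlib
import Pool.Agent.Q186.Bif.Core

namespace Pool.Agent.Q186.Bif

open Topology Filter

lemma iter_InG {c : ℂ} {r : ℝ} {c' : ℂ} (h : ‖c' - c‖ ≤ r) (n : ℕ) :
    InG c r ((quad c')^[n + 1]) := by
  induction n with
  | zero => exact InG.one c' h
  | succ n ih =>
    rw [Function.iterate_succ']
    exact InG.comp c' _ h ih

/-- real orbits of `z ↦ z ^ 2 + 1/4 + ε` grow at least linearly -/
lemma real_growth {ε : ℝ} (x : ℝ) (n : ℕ) :
    ∃ t : ℝ, x + n * ε ≤ t ∧ (quad ((1 / 4 + ε : ℝ) : ℂ))^[n] (x : ℂ) = (t : ℂ) := by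
  induction n with
  | zero => exact ⟨x, by simp, rfl⟩
  | succ n ih =>
    obtain ⟨t, ht, h⟩ := ih
    refine ⟨t ^ 2 + (1 / 4 + ε), ?_, ?_⟩
    · push_cast
      nlinarith [sq_nonneg (t - 1 / 2)]
    · rw [Function.iterate_succ', Function.comp_apply, h]
      simp [quad]

lemma quad_differentiable (c : ℂ) : Differentiable ℂ (quad c) := by
  unfold quad
  fun_prop

lemma hasDerivAt_quad (c z : ℂ) : HasDerivAt (quad c) (2 * z) z := by
  have h : HasDerivAt (fun x : ℂ => x ^ 2 + c) (((2 : ℕ) : ℂ) * z ^ (2 - 1)) z :=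
    (hasDerivAt_pow 2 z).add_const c
  have e : ((2 : ℕ) : ℂ) * z ^ (2 - 1) = 2 * z := by norm_num
  rw [e] at h
  exact h

/-- The iterates are differentiable with derivative given by the recursion. -/
lemma iter_deriv (c p : ℂ) (n : ℕ) :
    ∃ D : ℂ, HasDerivAt ((quad c)^[n]) D p ∧
      HasDerivAt ((quad c)^[n + 1]) (2 * ((quad c)^[n] p) * D) p := by
  induction n with
  | zero =>
    refine ⟨1, by simpa using hasDerivAt_id p, ?_⟩
    simpa using hasDerivAt_quad c p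
  | succ n ih =>
    obtain ⟨D, _, h⟩ := ih
    refine ⟨_, h, ?_⟩
    rw [Function.iterate_succ' (quad c) (n + 1)]
    exact (hasDerivAt_quad c ((quad c)^[n + 1] p)).comp p h

lemma iter_deriv_succ (c p : ℂ) (n : ℕ) :
    deriv ((quad c)^[n + 1]) p = 2 * ((quad c)^[n] p) * deriv ((quad c)^[n]) p := by
  obtain ⟨D, h1, h2⟩ := iter_deriv c p n
  rw [h1.deriv, h2.deriv]

lemma iter_im_succ (s : ℝ) (p : ℂ) (n : ℕ) :
    ((quad (s : ℂ))^[n + 1] p).im =
      2 * ((quad (s : ℂ))^[n] p).re * ((quad (s : ℂ))^[n] p).im := by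
  rw [Function.iterate_succ', Function.comp_apply]
  simp [quad, pow_two]
  ring

/-- no bounded nonempty closed invariant set with interior for the family above `1/4`. -/
lemma no_inv {c : ℂ} {r : ℝ} (hr : ‖(1 / 4 : ℂ) - c‖ < r) (K : Set ℂ) (hne : K.Nonempty)
    (hK : IsCompact K) (hinv : ∀ g, InG c r g → ∀ z ∈ K, g z ∈ K) : False := by
  obtain ⟨z₀, hz₀⟩ := hne
  set ε : ℝ := (r - ‖(1 / 4 : ℂ) - c‖) / 2 with hε
  have hεpos : 0 < ε := by rw [hε]; linarith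
  set s : ℝ := 1 / 4 + ε with hs
  have hsdist : ∀ c' : ℂ, ‖c' - (s : ℂ)‖ ≤ ε → ‖c' - c‖ ≤ r := by
    intro c' hc'
    have e : c' - c = (c' - s) + ((ε : ℂ) + (1 / 4 - c)) := by
      rw [hs]; push_cast; ring
    have h1 : ‖(ε : ℂ)‖ = ε := by
      rw [Complex.norm_real, Real.norm_eq_abs, abs_of_pos hεpos]
    calc ‖c' - c‖ = ‖(c' - s) + ((ε : ℂ) + (1 / 4 - c))‖ := by rw [← e]
      _ ≤ ‖c' - s‖ + ‖(ε : ℂ) + (1 / 4 - c)‖ := norm_add_le _ _
      _ ≤ ‖c' - s‖ + (‖(ε : ℂ)‖ + ‖1 / 4 - c‖) := by gcongr; exact norm_add_le _ _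
      _ ≤ r := by rw [h1]; linarith
  obtain ⟨R, hR⟩ := hK.isBounded.exists_norm_le
  have hs0 : ‖(s : ℂ) - (s : ℂ)‖ ≤ ε := by simpa using hεpos.le
  have hiter : ∀ n : ℕ, ∀ z ∈ K, (quad (s : ℂ))^[n] z ∈ K := by
    intro n z hz
    cases n with
    | zero => exact hz
    | succ n => exact hinv _ (iter_InG (hsdist _ hs0) n) z hz
  -- real points escape
  have hreal : ∀ z ∈ K, z.im ≠ 0 := by
    intro z hz h0
    have hzr : z = ((z.re : ℝ) : ℂ) := by
      apply Complex.ext <;> simp [h0]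
    obtain ⟨n, hn⟩ := exists_nat_gt ((R - z.re) / ε)
    obtain ⟨t, ht, h⟩ := real_growth (ε := ε) z.re n
    have h1 := hR _ (hiter n z hz)
    rw [hs] at h1
    rw [hzr, h, Complex.norm_real, Real.norm_eq_abs] at h1
    have h2 : R < z.re + n * ε := by
      rw [div_lt_iff₀ hεpos] at hn; linarith
    have h3 := le_abs_self t
    linarith
  -- positive distance to the real line
  obtain ⟨zm, hzm, hmin⟩ := hK.exists_isMinOn ⟨z₀, hz₀⟩
    (Complex.continuous_im.abs.continuousOn)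
  set δ := |zm.im| with hδ
  have hδpos : 0 < δ := abs_pos.2 (hreal zm hzm)
  have hδle : ∀ z ∈ K, δ ≤ |z.im| := fun z hz => hmin hz
  -- the ball
  set p : ℂ := quad (s : ℂ) z₀ with hp
  have hball : ∀ w : ℂ, ‖w - p‖ ≤ ε → w ∈ K := by
    intro w hw
    have e : quad (w - z₀ ^ 2) z₀ = w := by simp [quad]
    rw [← e]
    apply hinv _ (InG.one _ (hsdist _ ?_)) _ hz₀
    have : w - z₀ ^ 2 - (s : ℂ) = w - p := by rw [hp]; simp [quad]; ring
    rw [this]; exact hw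
  have hpK : p ∈ K := hball p (by simpa using hεpos.le)
  have hR0 : 0 ≤ R := (norm_nonneg _).trans (hR p hpK)
  have hRpos : 0 < R := by
    have h1 := hR p hpK
    have h2 := Complex.abs_im_le_norm p
    have h3 := hδle p hpK
    linarith
  have hdiff : ∀ n : ℕ, Differentiable ℂ ((quad (s : ℂ))^[n]) := by
    intro n
    induction n with
    | zero => exact differentiable_id
    | succ n ih =>
      rw [Function.iterate_succ']
      exact (quad_differentiable _).comp ih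
  have hcauchy : ∀ n : ℕ, ‖deriv ((quad (s : ℂ))^[n]) p‖ ≤ R / ε := by
    intro n
    apply Complex.norm_deriv_le_of_forall_mem_sphere_norm_le hεpos
    · exact (hdiff n).diffContOnCl
    · intro w hw
      apply hR
      apply hiter
      apply hball
      rw [mem_sphere_iff_norm] at hw
      exact hw.le
  -- growth of E_n
  have hgrow : ∀ n : ℕ, (1 + δ ^ 2 / R ^ 2) ^ n * ((quad (s : ℂ))^[n] p).im ^ 2 ≤
      ‖deriv ((quad (s : ℂ))^[n]) p‖ ^ 2 * p.im ^ 2 := by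
    intro n
    induction n with
    | zero =>
      simp
    | succ n ih =>
      rw [iter_deriv_succ, iter_im_succ]
      set z := (quad (s : ℂ))^[n] p with hz
      have hzK : z ∈ K := hiter n p hpK
      have h1 : ‖(2 : ℂ) * z * deriv ((quad (s : ℂ))^[n]) p‖ ^ 2
          = 4 * ‖z‖ ^ 2 * ‖deriv ((quad (s : ℂ))^[n]) p‖ ^ 2 := by
        rw [norm_mul, norm_mul, Complex.norm_ofNat]; ring
      rw [h1]
      have h2 : (1 + δ ^ 2 / R ^ 2) * z.re ^ 2 ≤ ‖z‖ ^ 2 := by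
        rw [← Complex.normSq_eq_norm_sq, Complex.normSq_apply]
        have h3 : z.re ^ 2 ≤ R ^ 2 := by
          rw [← sq_abs z.re]
          exact pow_le_pow_left₀ (abs_nonneg _)
            ((Complex.abs_re_le_norm z).trans (hR z hzK)) 2
        have h4 : δ ^ 2 ≤ z.im ^ 2 := by
          rw [← sq_abs z.im]
          exact pow_le_pow_left₀ hδpos.le (hδle z hzK) 2
        have h5 : δ ^ 2 / R ^ 2 * z.re ^ 2 ≤ δ ^ 2 := by
          rw [div_mul_eq_mul_div, div_le_iff₀ (by positivity)]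
          exact mul_le_mul_of_nonneg_left h3 (by positivity)
        nlinarith
      calc (1 + δ ^ 2 / R ^ 2) ^ (n + 1) * (2 * z.re * z.im) ^ 2
          = 4 * ((1 + δ ^ 2 / R ^ 2) * z.re ^ 2) * ((1 + δ ^ 2 / R ^ 2) ^ n * z.im ^ 2) := by ring
        _ ≤ 4 * ‖z‖ ^ 2 * (‖deriv ((quad (s : ℂ))^[n]) p‖ ^ 2 * p.im ^ 2) := by
            apply mul_le_mul _ ih (by positivity) (by positivity)
            linarith
        _ = 4 * ‖z‖ ^ 2 * ‖deriv ((quad (s : ℂ))^[n]) p‖ ^ 2 * p.im ^ 2 := by ring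
  have hq : 1 < 1 + δ ^ 2 / R ^ 2 := by
    have : 0 < δ ^ 2 / R ^ 2 := by positivity
    linarith
  obtain ⟨n, hn⟩ := pow_unbounded_of_one_lt ((R / ε) ^ 2 * p.im ^ 2 / δ ^ 2) hq
  have h1 := hgrow n
  have h2 : δ ^ 2 ≤ ((quad (s : ℂ))^[n] p).im ^ 2 := by
    rw [← sq_abs ((quad (s : ℂ))^[n] p).im]
    exact pow_le_pow_left₀ hδpos.le (hδle _ (hiter n p hpK)) 2
  have h3 : ‖deriv ((quad (s : ℂ))^[n]) p‖ ^ 2 ≤ (R / ε) ^ 2 :=
    pow_le_pow_left₀ (norm_nonneg _) (hcauchy n) 2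
  have h4 : (1 + δ ^ 2 / R ^ 2) ^ n * δ ^ 2 ≤ (R / ε) ^ 2 * p.im ^ 2 := by
    calc (1 + δ ^ 2 / R ^ 2) ^ n * δ ^ 2
        ≤ (1 + δ ^ 2 / R ^ 2) ^ n * ((quad (s : ℂ))^[n] p).im ^ 2 := by gcongr
      _ ≤ _ := h1
      _ ≤ _ := by gcongr
  rw [div_lt_iff₀ (by positivity)] at hn
  linarith

lemma not_hasPlanar {c : ℂ} {r : ℝ} (hr : ‖(1 / 4 : ℂ) - c‖ < r) : ¬ HasPlanarMinSet c r := by
  rintro ⟨L, ⟨⟨hne, hcomp, hinv⟩, -⟩, hinf⟩
  have hsub : L ⊆ Set.range (fun z : ℂ => (z : OnePoint ℂ)) := by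
    intro w hw
    induction w using OnePoint.rec with
    | infty => exact absurd hw hinf
    | coe z => exact ⟨z, rfl⟩
  have himg : (fun z : ℂ => (z : OnePoint ℂ)) '' ((fun z : ℂ => (z : OnePoint ℂ)) ⁻¹' L) = L :=
    Set.image_preimage_eq_of_subset hsub
  apply no_inv hr ((fun z : ℂ => (z : OnePoint ℂ)) ⁻¹' L)
  · obtain ⟨w, hw⟩ := hne
    obtain ⟨z, rfl⟩ := hsub hw
    exact ⟨z, hw⟩
  · rw [OnePoint.isOpenEmbedding_coe.isInducing.isCompact_iff]
    rw [himg]; exact hcomp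
  · intro g hg z hz
    exact hinv g hg ⟨z, hz, rfl⟩

lemma quarter_add_notMem {ε : ℝ} (hε : 0 < ε) : ((1 / 4 + ε : ℝ) : ℂ) ∉ mandel := by
  intro h
  apply h
  rw [tendsto_norm_atTop_iff_cobounded.symm]
  have h1 : ∀ n : ℕ, (n : ℝ) * ε ≤ ‖(quad ((1 / 4 + ε : ℝ) : ℂ))^[n] 0‖ := by
    intro n
    obtain ⟨t, ht, h⟩ := real_growth (ε := ε) 0 n
    rw [Complex.ofReal_zero] at h
    rw [h, Complex.norm_real, Real.norm_eq_abs]
    exact (by linarith : (n : ℝ) * ε ≤ t).trans (le_abs_self t)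
  exact tendsto_atTop_mono h1 (tendsto_natCast_atTop_atTop.atTop_mul_const hε)

lemma mem_mandel {a b : ℝ} (ha : 0 < a) (hb : |b| ≤ 5 / 12 * a)
    (hd : a ^ 2 + b ^ 2 ≤ (1 / 400) ^ 2) {c' : ℂ}
    (hc : ‖c' - (1 / 4 - (a + b * Complex.I))‖ ≤ Real.sqrt (a ^ 2 + b ^ 2)) : c' ∈ mandel := by
  intro h
  have hmem : ∀ n : ℕ, (quad c')^[n] 0 ∈ region a b := by
    intro n
    induction n with
    | zero => exact zero_mem_region ha
    | succ n ih =>
      rw [Function.iterate_succ', Function.comp_apply]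
      exact quad_mem_region ha hb hd hc ih
  obtain ⟨R, hR⟩ := (region_compact a b).isBounded.exists_norm_le
  rw [tendsto_norm_atTop_iff_cobounded.symm] at h
  obtain ⟨n, hn⟩ := (h.eventually (eventually_gt_atTop R)).exists
  exact absurd (hR _ (hmem n)) (not_le.2 hn)

lemma norm_quarter_sub (a b : ℝ) :
    ‖(1 / 4 : ℂ) - (1 / 4 - (a + b * Complex.I))‖ = Real.sqrt (a ^ 2 + b ^ 2) := by
  have : (1 / 4 : ℂ) - (1 / 4 - (a + b * Complex.I)) = a + b * Complex.I := by ring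
  rw [this, Complex.norm_add_mul_I]

theorem rbif_eq {a b : ℝ} (ha : 0 < a) (hb : |b| ≤ 5 / 12 * a)
    (hd : a ^ 2 + b ^ 2 ≤ (1 / 400) ^ 2) :
    rbif (1 / 4 - (a + b * Complex.I)) = Real.sqrt (a ^ 2 + b ^ 2) := by
  unfold rbif
  have hlb : ∀ r ∈ {r : ℝ | 0 ≤ r ∧ ¬ HasPlanarMinSet (1 / 4 - (a + b * Complex.I)) r},
      Real.sqrt (a ^ 2 + b ^ 2) ≤ r := by
    rintro r ⟨_, hr⟩
    by_contra hcon
    exact hr (hasPlanar ha hb hd (not_le.1 hcon).le)
  have hmem : ∀ r, Real.sqrt (a ^ 2 + b ^ 2) < r →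
      r ∈ {r : ℝ | 0 ≤ r ∧ ¬ HasPlanarMinSet (1 / 4 - (a + b * Complex.I)) r} := by
    intro r hr
    refine ⟨(Real.sqrt_nonneg _).trans hr.le, not_hasPlanar ?_⟩
    rwa [norm_quarter_sub]
  apply le_antisymm
  · apply le_of_forall_gt_imp_ge_of_dense
    intro r hr
    exact csInf_le ⟨_, hlb⟩ (hmem r hr)
  · exact le_csInf ⟨_, hmem _ (lt_add_one _)⟩ hlb

theorem quarter_frontier : (1 / 4 : ℂ) ∈ frontier mandel := by
  have h14 : (1 / 4 : ℂ) ∈ mandel := by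
    apply mem_mandel (a := 1 / 400) (b := 0) (by norm_num) (by norm_num) (by norm_num)
    rw [norm_quarter_sub]
  rw [frontier_eq_closure_inter_closure]
  refine ⟨subset_closure h14, ?_⟩
  rw [Metric.mem_closure_iff]
  intro ε hε
  refine ⟨((1 / 4 + ε / 2 : ℝ) : ℂ), quarter_add_notMem (by positivity), ?_⟩
  rw [dist_eq_norm]
  have : (1 / 4 : ℂ) - ((1 / 4 + ε / 2 : ℝ) : ℂ) = ((-(ε / 2) : ℝ) : ℂ) := by push_cast; ring
  rw [this, Complex.norm_real, Real.norm_eq_abs, abs_neg, abs_of_pos (by positivity)]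
  linarith

theorem infDist_eq {a b : ℝ} (ha : 0 < a) (hb : |b| ≤ 5 / 12 * a)
    (hd : a ^ 2 + b ^ 2 ≤ (1 / 400) ^ 2) :
    Metric.infDist (1 / 4 - (a + b * Complex.I)) (frontier mandel)
      = Real.sqrt (a ^ 2 + b ^ 2) := by
  apply le_antisymm
  · have := Metric.infDist_le_dist_of_mem (x := (1 / 4 - (a + b * Complex.I) : ℂ))
      quarter_frontier
    rwa [dist_comm, dist_eq_norm, norm_quarter_sub] at this
  · rw [Metric.le_infDist ⟨_, quarter_frontier⟩]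
    intro w hw
    by_contra hcon
    push Not at hcon
    rw [dist_comm] at hcon
    have hsub : Metric.ball (1 / 4 - (a + b * Complex.I) : ℂ) (Real.sqrt (a ^ 2 + b ^ 2)) ⊆
        mandel := by
      intro v hv
      apply mem_mandel ha hb hd
      rw [mem_ball_iff_norm] at hv
      exact hv.le
    have hint : w ∈ interior mandel := interior_maximal hsub Metric.isOpen_ball hcon
    exact hw.2 hint

end Pool.Agent.Q186.Bif
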